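import Pool.Agent.Helper12.GM.LibF
import Pool.Agent.Helper12.GM.Lib

/-!
# CHN: lower bounds of the killed Green function in a deep sector
-/

open scoped ENNReal UpperHalfPlane MatrixGroups Topology
open UpperHalfPlane Real Filter

namespace Pool.Agent.Helper12.GM

variable {Γ : Type} [Group Γ]

/-- two-sided lower bound of the killed Green function between the orbit points near `p` and the
orbit points near `q` -/
def CHN_Q (X : Fuchs Γ) (μ : PMF Γ) (Ω : Set Γ) (R a N : ℝ) (p q : ℍ) : Prop :=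
  ∀ x y : Γ, dist p (X.M x • (I : ℍ)) ≤ R → dist q (X.M y • (I : ℍ)) ≤ R →
    ENNReal.ofReal (Real.exp (-a * N)) ≤ Gr μ Ω x y ∧
      ENNReal.ofReal (Real.exp (-a * N)) ≤ Gr μ Ω y x

theorem CHN_symm {X : Fuchs Γ} {μ : PMF Γ} {Ω : Set Γ} {R a N : ℝ} {p q : ℍ}
    (h : CHN_Q X μ Ω R a N p q) : CHN_Q X μ Ω R a N q p :=
  fun x y hx hy => ⟨(h y x hy hx).2, (h y x hy hx).1⟩

theorem CHN_mono {X : Fuchs Γ} {μ : PMF Γ} {Ω : Set Γ} {R a N N' : ℝ} {p q : ℍ} (ha : 0 ≤ a)
    (hN : N ≤ N') (h : CHN_Q X μ Ω R a N p q) : CHN_Q X μ Ω R a N' p q := by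
  intro x y hx hy
  have h1 : ENNReal.ofReal (Real.exp (-a * N')) ≤ ENNReal.ofReal (Real.exp (-a * N)) := by
    apply ENNReal.ofReal_le_ofReal
    apply Real.exp_le_exp.mpr
    nlinarith
  exact ⟨h1.trans (h x y hx hy).1, h1.trans (h x y hx hy).2⟩

theorem CHN_trans {X : Fuchs Γ} {μ : PMF Γ} {Ω : Set Γ} {R a N N' : ℝ} {p q r : ℍ}
    (hchain : ∀ x y z, Gr μ Ω x z * Gr μ Ω z y ≤ ENNReal.ofReal (Real.exp a) * Gr μ Ω x y)
    (hR : ∀ z : ℍ, ∃ g, dist z (X.M g • (I : ℍ)) ≤ R)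
    (h : CHN_Q X μ Ω R a N p q) (h' : CHN_Q X μ Ω R a N' q r) :
    CHN_Q X μ Ω R a (N + N' + 1) p r := by
  intro x y hx hy
  obtain ⟨g, hg⟩ := hR q
  obtain ⟨h1, h2⟩ := h x g hx hg
  obtain ⟨h3, h4⟩ := h' g y hg hy
  have key : ∀ u v : ℝ≥0∞, ENNReal.ofReal (Real.exp (-a * N)) * ENNReal.ofReal (Real.exp (-a * N')) ≤
      ENNReal.ofReal (Real.exp a) * u → ENNReal.ofReal (Real.exp (-a * (N + N' + 1))) ≤ u := by
    intro u _ hu
    have h5 : ENNReal.ofReal (Real.exp (-a * (N + N' + 1))) =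
        ENNReal.ofReal (Real.exp (-a)) *
          (ENNReal.ofReal (Real.exp (-a * N)) * ENNReal.ofReal (Real.exp (-a * N'))) := by
      rw [← ENNReal.ofReal_mul (Real.exp_pos _).le, ← ENNReal.ofReal_mul (Real.exp_pos _).le,
        ← Real.exp_add, ← Real.exp_add]
      congr 2
      ring
    rw [h5]
    refine (mul_le_mul' le_rfl hu).trans ?_
    rw [← mul_assoc, ← ENNReal.ofReal_mul (Real.exp_pos _).le, ← Real.exp_add]
    simp
  refine ⟨key _ 0 ((mul_le_mul' h1 h3).trans (hchain x y g)), ?_⟩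
  refine key _ 0 (le_trans ?_ (hchain y x g))
  rw [mul_comm]
  exact mul_le_mul' h4 h2

theorem CHN_path {X : Fuchs Γ} {μ : PMF Γ} {Ω : Set Γ} {R a : ℝ} (ha : 0 ≤ a)
    (hchain : ∀ x y z, Gr μ Ω x z * Gr μ Ω z y ≤ ENNReal.ofReal (Real.exp a) * Gr μ Ω x y)
    (hR : ∀ z : ℍ, ∃ g, dist z (X.M g • (I : ℍ)) ≤ R)
    (f : ℝ → ℍ) (s₀ T : ℝ) (hs : 0 < s₀) (hT : 0 ≤ T)
    (hstep : ∀ s t, 0 ≤ s → s ≤ t → t ≤ T → t - s ≤ s₀ → CHN_Q X μ Ω R a 1 (f s) (f t)) :
    CHN_Q X μ Ω R a (2 * (T / s₀ + 1)) (f 0) (f T) := by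
  have key : ∀ n : ℕ, ∀ t, 0 ≤ t → t ≤ T → t ≤ (n + 1) * s₀ →
      CHN_Q X μ Ω R a (2 * (n + 1)) (f 0) (f t) := by
    intro n
    induction n with
    | zero =>
      intro t ht0 htT ht
      refine CHN_mono ha ?_ (hstep 0 t le_rfl ht0 htT ?_)
      · norm_num
      · simpa using ht
    | succ n ih =>
      intro t ht0 htT ht
      by_cases h : t ≤ (n + 1) * s₀
      · refine CHN_mono ha ?_ (ih t ht0 htT h)
        push_cast
        linarith
      · push Not at h
        have h0 : 0 ≤ t - s₀ := by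
          have : (0 : ℝ) ≤ n * s₀ := by positivity
          nlinarith
        have h1 := ih (t - s₀) h0 (by linarith) (by push_cast at ht; linarith)
        have h2 := hstep (t - s₀) t h0 (by linarith) htT (by linarith)
        refine CHN_mono ha ?_ (CHN_trans hchain hR h1 h2)
        push_cast
        linarith
  have h1 := key ⌊T / s₀⌋₊ T hT le_rfl (by
    have := Nat.lt_floor_add_one (T / s₀)
    rw [div_lt_iff₀ hs] at this
    exact this.le)
  refine CHN_mono ha ?_ h1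
  have := Nat.floor_le (div_nonneg hT hs.le)
  linarith

/-- vertical segments -/
theorem CHN_vert {X : Fuchs Γ} {μ : PMF Γ} {Ω : Set Γ} {R a κ₂ : ℝ} (ha : 0 ≤ a) (hκ : 0 ≤ κ₂)
    (hchain : ∀ x y z, Gr μ Ω x z * Gr μ Ω z y ≤ ENNReal.ofReal (Real.exp a) * Gr μ Ω x y)
    (hR : ∀ z : ℍ, ∃ g, dist z (X.M g • (I : ℍ)) ≤ R)
    (hbase : ∀ p q : ℍ, p.re < -κ₂ * p.im → q.re < -κ₂ * q.im → dist p q ≤ 1 →
      CHN_Q X μ Ω R a 1 p q)
    (p q : ℍ) (hp : p.re < -κ₂ * p.im) (hq : q.re < -κ₂ * q.im) (hpq : p.re = q.re) :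
    CHN_Q X μ Ω R a (2 * (|Real.log p.im - Real.log q.im| + 1)) p q := by
  have main : ∀ p q : ℍ, p.re < -κ₂ * p.im → q.re < -κ₂ * q.im → p.re = q.re → p.im ≤ q.im →
      CHN_Q X μ Ω R a (2 * (|Real.log p.im - Real.log q.im| + 1)) p q := by
    intro p q hp hq hpq hle
    have hp0 := p.im_pos
    have hq0 := q.im_pos
    have hT : 0 ≤ Real.log q.im - Real.log p.im := by
      have := Real.log_le_log hp0 hle
      linarith
    let f : ℝ → ℍ := fun t => ⟨⟨p.re, p.im * Real.exp t⟩, mul_pos hp0 (Real.exp_pos t)⟩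
    have fre : ∀ t, (f t).re = p.re := fun t => rfl
    have fim : ∀ t, (f t).im = p.im * Real.exp t := fun t => rfl
    have h := CHN_path (X := X) (μ := μ) (Ω := Ω) (R := R) ha hchain hR f 1
      (Real.log q.im - Real.log p.im) one_pos hT ?_
    · have e0 : f 0 = p := by
        apply UpperHalfPlane.ext_re_im
        · rw [fre]
        · rw [fim]; simp
      have e1 : f (Real.log q.im - Real.log p.im) = q := by
        apply UpperHalfPlane.ext_re_im
        · rw [fre, hpq]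
        · rw [fim, Real.exp_sub, Real.exp_log hq0, Real.exp_log hp0]
          field_simp
      rw [e0, e1] at h
      refine CHN_mono ha ?_ h
      rw [abs_sub_comm, abs_of_nonneg hT]
      linarith
    · intro s t hs hst htT hts
      have hsec : ∀ r, 0 ≤ r → r ≤ Real.log q.im - Real.log p.im →
          (f r).re < -κ₂ * (f r).im := by
        intro r _ hr
        rw [fre, fim]
        have h1 : p.im * Real.exp r ≤ q.im := by
          calc p.im * Real.exp r ≤ p.im * Real.exp (Real.log q.im - Real.log p.im) :=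
                mul_le_mul_of_nonneg_left (Real.exp_le_exp.mpr hr) hp0.le
            _ = q.im := by
                rw [Real.exp_sub, Real.exp_log hq0, Real.exp_log hp0]
                field_simp
        have h2 : κ₂ * (p.im * Real.exp r) ≤ κ₂ * q.im := mul_le_mul_of_nonneg_left h1 hκ
        rw [hpq]
        linarith
      refine hbase _ _ (hsec s hs (hst.trans htT)) (hsec t (hs.trans hst) htT) ?_
      rw [UpperHalfPlane.dist_of_re_eq (by rw [fre, fre]), fim, fim,
        Real.log_mul hp0.ne' (Real.exp_pos _).ne', Real.log_mul hp0.ne' (Real.exp_pos _).ne',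
        Real.log_exp, Real.log_exp, Real.dist_eq]
      rw [abs_le]
      constructor <;> linarith
  rcases le_total p.im q.im with h | h
  · exact main p q hp hq hpq h
  · have := CHN_symm (main q p hq hp hpq.symm h)
    rw [abs_sub_comm]
    exact this

/-- segments of rays -/
theorem CHN_ray {X : Fuchs Γ} {μ : PMF Γ} {Ω : Set Γ} {R a κ₂ κ₃ : ℝ} (ha : 0 ≤ a)
    (h₃ : 0 ≤ κ₃)
    (hchain : ∀ x y z, Gr μ Ω x z * Gr μ Ω z y ≤ ENNReal.ofReal (Real.exp a) * Gr μ Ω x y)
    (hR : ∀ z : ℍ, ∃ g, dist z (X.M g • (I : ℍ)) ≤ R)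
    (hbase : ∀ p q : ℍ, p.re < -κ₂ * p.im → q.re < -κ₂ * q.im → dist p q ≤ 1 →
      CHN_Q X μ Ω R a 1 p q)
    (p q : ℍ) (hp : p.re < -κ₂ * p.im) (hp3 : |p.re| ≤ κ₃ * p.im) (t₀ : ℝ)
    (hre : q.re = Real.exp t₀ * p.re) (him : q.im = Real.exp t₀ * p.im) :
    CHN_Q X μ Ω R a (2 * (|t₀| * (2 * (1 + κ₃)) + 1)) p q := by
  have main : ∀ (p q : ℍ) (t₀ : ℝ), p.re < -κ₂ * p.im → |p.re| ≤ κ₃ * p.im → 0 ≤ t₀ →
      q.re = Real.exp t₀ * p.re → q.im = Real.exp t₀ * p.im →
      CHN_Q X μ Ω R a (2 * (|t₀| * (2 * (1 + κ₃)) + 1)) p q := by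
    intro p q t₀ hp hp3 ht₀ hre him
    have hp0 := p.im_pos
    let f : ℝ → ℍ := fun t => ⟨⟨Real.exp t * p.re, Real.exp t * p.im⟩,
      mul_pos (Real.exp_pos t) hp0⟩
    have fre : ∀ t, (f t).re = Real.exp t * p.re := fun t => rfl
    have fim : ∀ t, (f t).im = Real.exp t * p.im := fun t => rfl
    have h3 : 0 < 2 * (1 + κ₃) := by positivity
    have h := CHN_path (X := X) (μ := μ) (Ω := Ω) (R := R) ha hchain hR f (1 / (2 * (1 + κ₃)))
      t₀ (by positivity) ht₀ ?_
    · have e0 : f 0 = p := by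
        apply UpperHalfPlane.ext_re_im
        · rw [fre]; simp
        · rw [fim]; simp
      have e1 : f t₀ = q := by
        apply UpperHalfPlane.ext_re_im
        · rw [fre, hre]
        · rw [fim, him]
      rw [e0, e1] at h
      refine CHN_mono ha ?_ h
      rw [abs_of_nonneg ht₀, div_div_eq_mul_div, div_one]
    · intro s t hs hst htT hts
      have hsec : ∀ r, (f r).re < -κ₂ * (f r).im := by
        intro r
        rw [fre, fim]
        have := mul_lt_mul_of_pos_left hp (Real.exp_pos r)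
        linarith
      refine hbase _ _ (hsec s) (hsec t) ?_
      set δ := t - s with hδ
      have hδ0 : 0 ≤ δ := by linarith
      have hδ1 : δ * (2 * (1 + κ₃)) ≤ 1 := by
        rwa [le_div_iff₀ h3] at hts
      have hδ2 : δ ≤ 1 := by nlinarith
      have hexp : |Real.exp δ - 1| ≤ 2 * |δ| := Real.abs_exp_sub_one_le (by
        rw [abs_of_nonneg hδ0]; exact hδ2)
      rw [abs_of_nonneg hδ0] at hexp
      have hexp1 : 1 ≤ Real.exp δ := Real.one_le_exp hδ0
      rw [abs_of_nonneg (by linarith)] at hexp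
      have hsq : p.re ^ 2 ≤ κ₃ ^ 2 * p.im ^ 2 := by
        rw [← mul_pow, ← sq_abs p.re]
        exact pow_le_pow_left₀ (abs_nonneg _) hp3 2
      have ht : Real.exp t = Real.exp s * Real.exp δ := by
        rw [← Real.exp_add]
        congr 1
        rw [hδ]; ring
      have hes := Real.exp_pos s
      -- the main inequality
      have hmain : (Real.exp t - Real.exp s) ^ 2 * (p.re ^ 2 + p.im ^ 2) ≤
          (Real.exp s * p.im) * (Real.exp t * p.im) := by
        rw [ht]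
        have e1 : (Real.exp s * Real.exp δ - Real.exp s) ^ 2 * (p.re ^ 2 + p.im ^ 2) =
            Real.exp s ^ 2 * ((Real.exp δ - 1) ^ 2 * (p.re ^ 2 + p.im ^ 2)) := by ring
        have e2 : Real.exp s * p.im * (Real.exp s * Real.exp δ * p.im) =
            Real.exp s ^ 2 * (Real.exp δ * p.im ^ 2) := by ring
        rw [e1, e2]
        apply mul_le_mul_of_nonneg_left _ (by positivity)
        have e3 : (Real.exp δ - 1) ^ 2 ≤ (2 * δ) ^ 2 :=
          pow_le_pow_left₀ (by linarith) hexp 2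
        have e4 : (2 * δ) ^ 2 * (1 + κ₃ ^ 2) ≤ 1 := by
          have e5 : (δ * (2 * (1 + κ₃))) ^ 2 ≤ 1 := by
            have : 0 ≤ δ * (2 * (1 + κ₃)) := by positivity
            nlinarith
          nlinarith [sq_nonneg δ, mul_nonneg (sq_nonneg δ) h₃]
        calc (Real.exp δ - 1) ^ 2 * (p.re ^ 2 + p.im ^ 2) ≤
              (2 * δ) ^ 2 * (p.re ^ 2 + p.im ^ 2) :=
              mul_le_mul_of_nonneg_right e3 (by positivity)
          _ ≤ (2 * δ) ^ 2 * (κ₃ ^ 2 * p.im ^ 2 + p.im ^ 2) :=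
              mul_le_mul_of_nonneg_left (by linarith) (by positivity)
          _ = ((2 * δ) ^ 2 * (1 + κ₃ ^ 2)) * p.im ^ 2 := by ring
          _ ≤ 1 * p.im ^ 2 := mul_le_mul_of_nonneg_right e4 (by positivity)
          _ ≤ Real.exp δ * p.im ^ 2 := mul_le_mul_of_nonneg_right hexp1 (by positivity)
      have hpos : 0 < (f s).im * (f t).im := mul_pos (f s).im_pos (f t).im_pos
      refine (UpperHalfPlane.dist_le_dist_coe_div_sqrt _ _).trans ?_
      rw [div_le_one (Real.sqrt_pos.mpr hpos)]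
      apply Real.le_sqrt_of_sq_le
      rw [Complex.dist_eq, Complex.sq_norm, Complex.normSq_apply]
      have r1 : ((f s : ℂ) - (f t : ℂ)).re = (Real.exp s - Real.exp t) * p.re := by
        rw [Complex.sub_re, UpperHalfPlane.coe_re, UpperHalfPlane.coe_re, fre, fre]
        ring
      have r2 : ((f s : ℂ) - (f t : ℂ)).im = (Real.exp s - Real.exp t) * p.im := by
        rw [Complex.sub_im, UpperHalfPlane.coe_im, UpperHalfPlane.coe_im, fim, fim]
        ring
      rw [r1, r2, fim, fim]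
      nlinarith [hmain]
  rcases le_total 0 t₀ with h | h
  · exact main p q t₀ hp hp3 h hre him
  · have hpe : Real.exp (-t₀) * Real.exp t₀ = 1 := by rw [← Real.exp_add]; simp
    have hqp : q.re < -κ₂ * q.im := by
      rw [hre, him]
      have := mul_lt_mul_of_pos_left hp (Real.exp_pos t₀)
      linarith
    have hq3 : |q.re| ≤ κ₃ * q.im := by
      rw [hre, him, abs_mul, abs_of_pos (Real.exp_pos _)]
      have := mul_le_mul_of_nonneg_left hp3 (Real.exp_pos t₀).le
      linarith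
    have := CHN_symm (main q p (-t₀) hqp hq3 (by linarith)
      (by rw [hre, ← mul_assoc, hpe, one_mul]) (by rw [him, ← mul_assoc, hpe, one_mul]))
    rwa [abs_neg] at this

/-- size of the coordinates of an orbit point -/
theorem CHN_coord (p : ℍ) {κ₂ : ℝ} (h1 : 1 ≤ κ₂) (hp : p.re < -κ₂ * p.im) :
    |Real.log p.im| ≤ dist (I : ℍ) p ∧ |Real.log (-p.re)| ≤ dist (I : ℍ) p := by
  have hp0 := p.im_pos
  have e1 : |Real.log p.im| ≤ dist (I : ℍ) p := by
    have := UpperHalfPlane.dist_log_im_le (I : ℍ) p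
    rw [UpperHalfPlane.I_im, Real.log_one, Real.dist_eq, zero_sub, abs_neg] at this
    exact this
  refine ⟨e1, ?_⟩
  have hre : p.im < -p.re := by nlinarith
  have hre0 : 0 < -p.re := hp0.trans hre
  rw [abs_le] at e1 ⊢
  constructor
  · exact e1.1.trans (Real.log_le_log hp0 hre.le)
  · rw [← Real.log_exp (dist (I : ℍ) p)]
    apply Real.log_le_log hre0
    have h2 := UpperHalfPlane.dist_coe_le p (I : ℍ)
    rw [UpperHalfPlane.I_im, one_mul, dist_comm p I, Complex.dist_eq] at h2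
    have h3 := Complex.abs_re_le_norm ((p : ℂ) - ((I : ℍ) : ℂ))
    rw [Complex.sub_re, UpperHalfPlane.coe_re, UpperHalfPlane.coe_re, UpperHalfPlane.I_re,
      sub_zero] at h3
    have h4 := neg_le_abs p.re
    linarith

theorem st_CHN (hDEEP : ST_DEEP) (hHARN : ST_HARN) : ST_CHN := by
  intro Γ _ X Q μ K κ hL hW hκ
  obtain ⟨R, hR⟩ := X.cocpt
  have hR0 : 0 ≤ R := by
    obtain ⟨g, hg⟩ := hR I
    exact dist_nonneg.trans hg
  obtain ⟨c₀, r', hc₀, hr', hH⟩ := hHARN Q μ hW.adm (2 * R + 1)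
  obtain ⟨κd, hκd, hD⟩ := hDEEP κ (R + r') hκ (by positivity)
  have hK1 := hW.one_le
  set κ₂ := κd + 1 with hκ₂
  have h1 : 1 ≤ κ₂ := by linarith
  set κ₃ := κ₂ + 1 with hκ₃
  have h3 : 0 < κ₃ := by linarith
  set Ω := Lft X κ with hΩ
  set a := max (Real.log (1 + K)) (-Real.log c₀) with ha
  have ha0 : 0 ≤ a := (Real.log_nonneg (by linarith)).trans (le_max_left _ _)
  have hchain : ∀ x y z, Gr μ Ω x z * Gr μ Ω z y ≤
      ENNReal.ofReal (Real.exp a) * Gr μ Ω x y := by
    intro x y z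
    refine (Gr_chain μ Ω x z y).trans ?_
    refine mul_le_mul' (hW.G0_le.trans ?_) le_rfl
    apply ENNReal.ofReal_le_ofReal
    calc 1 + K = Real.exp (Real.log (1 + K)) := (Real.exp_log (by linarith)).symm
      _ ≤ Real.exp a := Real.exp_le_exp.mpr (le_max_left _ _)
  have hac : Real.exp (-a * 1) ≤ c₀ := by
    calc Real.exp (-a * 1) ≤ Real.exp (Real.log c₀) := by
          apply Real.exp_le_exp.mpr
          have := le_max_right (Real.log (1 + K)) (-Real.log c₀)
          rw [← ha] at this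
          linarith
      _ = c₀ := Real.exp_log hc₀
  have hone : ∀ (p q : ℍ) (x y : Γ), p.re < -κ₂ * p.im → dist p q ≤ 1 →
      dist p (X.M x • (I : ℍ)) ≤ R → dist q (X.M y • (I : ℍ)) ≤ R →
      ENNReal.ofReal (Real.exp (-a * 1)) ≤ Gr μ Ω x y := by
    intro p q x y hp hpq hx hy
    have h5 := hH Ω x (x⁻¹ * y) ?_ ?_
    · rw [mul_inv_cancel_left] at h5
      exact (ENNReal.ofReal_le_ofReal hac).trans h5
    · rw [hL, ← X.dist_orbit]
      have t1 := dist_triangle (X.M x • (I : ℍ)) p (X.M y • (I : ℍ))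
      have t2 := dist_triangle p q (X.M y • (I : ℍ))
      rw [dist_comm (X.M x • (I : ℍ)) p] at t1
      linarith
    · intro y' hy'
      have h6 : dist p (X.M y' • (I : ℍ)) ≤ R + r' := by
        have t1 := dist_triangle p (X.M x • (I : ℍ)) (X.M y' • (I : ℍ))
        have t2 : dist (X.M x • (I : ℍ)) (X.M y' • (I : ℍ)) ≤ r' := by
          rw [X.dist_orbit, ← hL]
          exact hy'
        linarith
      refine hD p _ h6 ?_
      have hp0 := p.im_pos
      nlinarith
  have hbase : ∀ p q : ℍ, p.re < -κ₂ * p.im → q.re < -κ₂ * q.im → dist p q ≤ 1 →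
      CHN_Q X μ Ω R a 1 p q := by
    intro p q hp hq hpq x y hx hy
    exact ⟨hone p q x y hp hpq hx hy, hone q p y x hq (by rwa [dist_comm]) hy hx⟩
  refine ⟨κ₂, by linarith, ?_⟩
  intro z hz
  have hlog3 : 0 ≤ Real.log κ₃ := Real.log_nonneg (by linarith)
  have hLz := X.L_nonneg z
  refine ⟨Real.exp (-a * (2 * (2 * X.L z + Real.log κ₃ + 1) +
      2 * (2 * X.L z * (2 * (1 + κ₃)) + 1) + 1 + 2 * (2 * X.L z + Real.log κ₃ + 1) + 1)),
    a * (4 + 4 * (1 + κ₃)), Real.exp_pos _, by positivity, ?_⟩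
  intro u hu
  -- the four points
  set pu := X.M u • (I : ℍ) with hpu
  set pz := X.M z • (I : ℍ) with hpz
  have hu' : pu.re < -κ₂ * pu.im := hu
  have hz' : pz.re < -κ₂ * pz.im := hz
  have hpu0 := pu.im_pos
  have hpz0 := pz.im_pos
  have hru : 0 < -pu.re := by nlinarith
  have hrz : 0 < -pz.re := by nlinarith
  have hune : pu.re ≠ 0 := fun h => by linarith
  let qu : ℍ := ⟨⟨pu.re, -pu.re / κ₃⟩, div_pos hru h3⟩
  let qz : ℍ := ⟨⟨pz.re, -pz.re / κ₃⟩, div_pos hrz h3⟩
  have qure : qu.re = pu.re := rfl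
  have quim : qu.im = -pu.re / κ₃ := rfl
  have qzre : qz.re = pz.re := rfl
  have qzim : qz.im = -pz.re / κ₃ := rfl
  have hsec : ∀ r : ℝ, 0 < r → -r < -κ₂ * (r / κ₃) := by
    intro r hr
    have : κ₂ * (r / κ₃) < r := by
      rw [mul_div_assoc', div_lt_iff₀ h3]
      nlinarith
    linarith
  have hqu : qu.re < -κ₂ * qu.im := by
    rw [qure, quim]
    have := hsec _ hru
    linarith
  have hqz : qz.re < -κ₂ * qz.im := by
    rw [qzre, qzim]
    have := hsec _ hrz
    linarith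
  obtain ⟨cu1, cu2⟩ := CHN_coord pu h1 hu'
  obtain ⟨cz1, cz2⟩ := CHN_coord pz h1 hz'
  have eu : dist (I : ℍ) pu = X.L u := rfl
  have ez : dist (I : ℍ) pz = X.L z := rfl
  rw [eu] at cu1 cu2
  rw [ez] at cz1 cz2
  have hLu : X.L u ≤ X.L z + Q.d z u := by
    have t1 := dist_triangle (I : ℍ) pz pu
    have t2 : dist pz pu = Q.d z u := by
      rw [hpz, hpu, X.dist_orbit, ← hL]
      rfl
    rw [t2, eu, ez] at t1
    exact t1
  have hd := Q.d_nonneg z u
  -- first vertical segment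
  have s1 := CHN_vert ha0 (by linarith : (0 : ℝ) ≤ κ₂) hchain hR hbase pu qu hu' hqu qure.symm
  -- ray
  have s2 := CHN_ray (t₀ := Real.log (-pz.re) - Real.log (-pu.re)) ha0 h3.le hchain hR hbase
    qu qz hqu (by
      rw [qure, quim, abs_of_neg (by linarith)]
      rw [mul_div_cancel₀ _ h3.ne']) (by
      rw [qzre, qure, Real.exp_sub, Real.exp_log hrz, Real.exp_log hru, neg_div_neg_eq,
        div_mul_cancel₀ _ hune]) (by
      rw [qzim, quim, Real.exp_sub, Real.exp_log hrz, Real.exp_log hru, neg_div_neg_eq,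
        mul_div_assoc', mul_neg, div_mul_cancel₀ _ hune])
  -- second vertical segment
  have s3 := CHN_vert ha0 (by linarith : (0 : ℝ) ≤ κ₂) hchain hR hbase qz pz hqz hz' qzre
  have s4 := CHN_trans hchain hR (CHN_trans hchain hR s1 s2) s3
  obtain ⟨f1, f2⟩ := s4 u z (by rw [← hpu, dist_self]; exact hR0) (by rw [← hpz, dist_self]; exact hR0)
  have b1 : |Real.log pu.im - Real.log qu.im| ≤ 2 * X.L u + Real.log κ₃ := by
    rw [quim, Real.log_div hru.ne' h3.ne']
    rw [abs_le] at cu1 cu2 ⊢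
    constructor <;> linarith
  have b3 : |Real.log qz.im - Real.log pz.im| ≤ 2 * X.L z + Real.log κ₃ := by
    rw [qzim, Real.log_div hrz.ne' h3.ne']
    rw [abs_le] at cz1 cz2 ⊢
    constructor <;> linarith
  have b2 : |Real.log (-pz.re) - Real.log (-pu.re)| ≤ X.L u + X.L z := by
    rw [abs_le] at cu2 cz2 ⊢
    constructor <;> linarith
  have hfin : ENNReal.ofReal (Real.exp (-a * (2 * (2 * X.L z + Real.log κ₃ + 1) +
      2 * (2 * X.L z * (2 * (1 + κ₃)) + 1) + 1 + 2 * (2 * X.L z + Real.log κ₃ + 1) + 1)) *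
      Real.exp (-(a * (4 + 4 * (1 + κ₃))) * Q.d z u)) ≤
      ENNReal.ofReal (Real.exp (-a * (2 * (|Real.log pu.im - Real.log qu.im| + 1) +
        2 * (|Real.log (-pz.re) - Real.log (-pu.re)| * (2 * (1 + κ₃)) + 1) + 1 +
        2 * (|Real.log qz.im - Real.log pz.im| + 1) + 1))) := by
    apply ENNReal.ofReal_le_ofReal
    rw [← Real.exp_add]
    apply Real.exp_le_exp.mpr
    have b4 : |Real.log (-pz.re) - Real.log (-pu.re)| * (2 * (1 + κ₃)) ≤
        (2 * X.L z + Q.d z u) * (2 * (1 + κ₃)) := by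
      apply mul_le_mul_of_nonneg_right _ (by positivity)
      linarith
    have b5 : 2 * (|Real.log pu.im - Real.log qu.im| + 1) +
        2 * (|Real.log (-pz.re) - Real.log (-pu.re)| * (2 * (1 + κ₃)) + 1) + 1 +
        2 * (|Real.log qz.im - Real.log pz.im| + 1) + 1 ≤
        (2 * (2 * X.L z + Real.log κ₃ + 1) +
      2 * (2 * X.L z * (2 * (1 + κ₃)) + 1) + 1 + 2 * (2 * X.L z + Real.log κ₃ + 1) + 1) +
        (4 + 4 * (1 + κ₃)) * Q.d z u := by
      linarith
    have b6 := mul_le_mul_of_nonneg_left b5 ha0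
    linarith
  exact ⟨hfin.trans f1, hfin.trans f2⟩

end Pool.Agent.Helper12.GM
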